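import Pool.Agent.H4.SE.Targets

/-!
# Tuples of words in symmetric groups (MP_45b854_al): the coupling is good (module IP)
-/

set_option autoImplicit false

open Finset Equiv
open scoped Classical

namespace Pool.Agent.H21.SE4IP

open Pool.Agent.H4.SE
open Pool.Agent.H11.SAE (lp act verts)

theorem card_bU {I Ω : Type} [DecidableEq Ω] (s : Finset I) (A : I → Finset Ω) (N c : ℕ)
    (h : ∀ i ∈ s, (A i).card * N ≤ c) : (s.biUnion A).card * N ≤ s.card * c := by
  calc (s.biUnion A).card * N ≤ (∑ i ∈ s, (A i).card) * N :=
        Nat.mul_le_mul_right _ Finset.card_biUnion_le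
    _ = ∑ i ∈ s, (A i).card * N := by rw [Finset.sum_mul]
    _ ≤ ∑ _i ∈ s, c := Finset.sum_le_sum h
    _ = s.card * c := by simp

theorem lb_some {r d : ℕ} (T : Fin d → List (Fin r × Bool)) (j : Fin d) (l : ℕ)
    (h : l < (T j).length) : ∃ i, lb T (j, l) = some i := by
  refine ⟨((T j)[l]).1, ?_⟩
  simp [lb, List.getElem?_eq_getElem h]

theorem ZZ_some {r d : ℕ} (T : Fin d → List (Fin r × Bool)) {β : Type} (σ : Fin r → Perm β)
    (p : Fin r → β) (j : Fin d) (l : ℕ) (i : Fin r) (h : lb T (j, l) = some i) :
    ZZ T σ p (j, l) = some ((pp σ (T j) (rt T (j, l)))⁻¹ (p i)) := by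
  simp [ZZ, h]

theorem pf_IP (hP1 : T_P1) (hP2 : T_P2) (hP3 : T_P3) : T_IP := by
  intro r d T hT
  set L : ℕ := ∑ j, (T j).length with hL
  have hlen : ∀ j, (T j).length ≤ L := fun j =>
    Finset.single_le_sum (f := fun j => (T j).length) (fun _ _ => Nat.zero_le _)
      (Finset.mem_univ j)
  set C : ℕ := r + 1 + d * (L + 1) ^ 2 * (1 + 2 * L ^ 2) + d * (L + 1) ^ 2 + 2 * L with hC
  refine ⟨(C : ℝ), Nat.cast_nonneg _, ?_⟩
  intro k β _ _ _
  set N := Fintype.card β with hN
  set R := Fintype.card (Oh r k β) with hR
  have key : (univ.filter fun ω : Oh r k β => ¬ Good T ω).card * N ≤ C * (k + 1) * R := by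
    by_cases hNL : N ≤ 2 * L
    · have h1 : (univ.filter fun ω : Oh r k β => ¬ Good T ω).card ≤ R := by
        rw [hR, ← Finset.card_univ]
        exact Finset.card_le_card (Finset.filter_subset _ _)
      calc (univ.filter fun ω : Oh r k β => ¬ Good T ω).card * N ≤ R * (2 * L) :=
            Nat.mul_le_mul h1 hNL
        _ ≤ C * (k + 1) * R := by
            have h2 : 2 * L ≤ C * (k + 1) := by
              have : 2 * L ≤ C := by rw [hC]; exact Nat.le_add_left _ _
              nlinarith
            rw [mul_comm]
            exact Nat.mul_le_mul_right _ h2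
    · rw [not_le] at hNL
      -- the four families
      let A1 : Fin r → Finset (Oh r k β) := fun i => univ.filter fun ω => (ω.2.1 i).1 = none
      let A2 : Fin k → Finset (Oh r k β) := fun m => univ.filter fun ω => (ω.2.2 m).1 = none
      let A3 : Fin d × ℕ × ℕ → Finset (Oh r k β) := fun q => univ.filter fun ω =>
        q.2.1 < q.2.2 ∧ q.2.2 < (T q.1).length ∧
          ZZ T ω.1 (pt ω) (q.1, q.2.1) = ZZ T ω.1 (pt ω) (q.1, q.2.2)
      let A4 : Fin k × Fin d × ℕ × ℕ → Finset (Oh r k β) := fun q => univ.filter fun ω =>
        q.2.2.2 < q.2.2.1 ∧ q.2.2.1 ≤ (T q.2.1).length ∧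
          ZZ T ω.1 (pt ω) (q.2.1, q.2.2.2) =
            some ((pp ω.1 (T q.2.1) q.2.2.1)⁻¹ ((sml ω).2 q.1))
      obtain ⟨hF, ho, hc⟩ := hP1 r k β
      have b1 : ∀ i ∈ (univ : Finset (Fin r)), (A1 i).card * N ≤ R := by
        intro i _
        have h1 : (A1 i).card * (N + 1) = R := by
          have := ho i
          convert this using 3
        calc (A1 i).card * N ≤ (A1 i).card * (N + 1) := Nat.mul_le_mul_left _ (Nat.le_succ _)
          _ = R := h1
      have b2 : ∀ m ∈ (univ : Finset (Fin k)), (A2 m).card * N ≤ R := by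
        intro m _
        have h1 : (A2 m).card * (N + 1) = R := by
          have := hc m
          convert this using 3
        calc (A2 m).card * N ≤ (A2 m).card * (N + 1) := Nat.mul_le_mul_left _ (Nat.le_succ _)
          _ = R := h1
      have b3 : ∀ q ∈ (univ ×ˢ range (L + 1) ×ˢ range (L + 1) : Finset (Fin d × ℕ × ℕ)),
          (A3 q).card * N ≤ R * (1 + 2 * L ^ 2) := by
        rintro ⟨j, a, b⟩ -
        by_cases hab : a < b ∧ b < (T j).length
        · obtain ⟨hab, hb⟩ := hab
          obtain ⟨i, hi⟩ := lb_some T j a (hab.trans hb)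
          obtain ⟨i', hi'⟩ := lb_some T j b hb
          by_cases hii : i = i'
          · subst hii
            have h2 := hP2 r d T k β j a (hT j)
            have hsub : A3 (j, a, b) ⊆ (univ.filter fun ω : Oh r k β =>
                ∃ s, ZZ T ω.1 (pt ω) (j, a) = some s ∧
                  ¬ (verts ω.1 (T j).reverse s).Nodup) := by
              intro ω hω
              obtain ⟨-, -, -, h3⟩ := Finset.mem_filter.1 hω
              refine Finset.mem_filter.2 ⟨Finset.mem_univ _, _, ZZ_some T ω.1 (pt ω) j a i hi, ?_⟩
              refine hP3 r d T β ω.1 (pt ω) j a b _ (hT j) hab hb (hi.trans hi'.symm)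
                (ZZ_some T ω.1 (pt ω) j a i hi) ?_
              rw [← h3]
              exact ZZ_some T ω.1 (pt ω) j a i hi
            have h4 : (A3 (j, a, b)).card * (N - (T j).length) ≤ R * (T j).length ^ 2 :=
              (Nat.mul_le_mul_right _ (Finset.card_le_card hsub)).trans h2
            have h5 : N ≤ 2 * (N - (T j).length) := by
              have := hlen j
              omega
            calc (A3 (j, a, b)).card * N
                ≤ (A3 (j, a, b)).card * (2 * (N - (T j).length)) := Nat.mul_le_mul_left _ h5
              _ = 2 * ((A3 (j, a, b)).card * (N - (T j).length)) := by ring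
              _ ≤ 2 * (R * (T j).length ^ 2) := Nat.mul_le_mul_left _ h4
              _ ≤ 2 * (R * L ^ 2) := by
                  have : (T j).length ^ 2 ≤ L ^ 2 := Nat.pow_le_pow_left (hlen j) 2
                  exact Nat.mul_le_mul_left _ (Nat.mul_le_mul_left _ this)
              _ ≤ R * (1 + 2 * L ^ 2) := by nlinarith
          · have h1 := hF i' (fun ω => pp ω.1 (T j) (rt T (j, b))
              ((pp ω.1 (T j) (rt T (j, a)))⁻¹ (pt ω i))) (by
                intro ω x
                simp [pt, Function.update_of_ne hii])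
            have hsub : A3 (j, a, b) ⊆ (univ.filter fun ω : Oh r k β => pt ω i' =
                pp ω.1 (T j) (rt T (j, b)) ((pp ω.1 (T j) (rt T (j, a)))⁻¹ (pt ω i))) := by
              intro ω hω
              obtain ⟨-, -, -, h3⟩ := Finset.mem_filter.1 hω
              refine Finset.mem_filter.2 ⟨Finset.mem_univ _, ?_⟩
              simp only at h3
              rw [ZZ_some T ω.1 (pt ω) j a i hi, ZZ_some T ω.1 (pt ω) j b i' hi'] at h3
              have h4 := Option.some.inj h3
              rw [h4]
              simp
            calc (A3 (j, a, b)).card * N ≤ _ := Nat.mul_le_mul_right _ (Finset.card_le_card hsub)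
              _ = R := h1
              _ ≤ R * (1 + 2 * L ^ 2) := by nlinarith
        · have : A3 (j, a, b) = ∅ := by
            rw [Finset.eq_empty_iff_forall_notMem]
            intro ω hω
            obtain ⟨-, h1, h2, -⟩ := Finset.mem_filter.1 hω
            exact hab ⟨h1, h2⟩
          rw [this]
          simp
      have b4 : ∀ q ∈ (univ ×ˢ univ ×ˢ range (L + 1) ×ˢ range (L + 1) :
          Finset (Fin k × Fin d × ℕ × ℕ)), (A4 q).card * N ≤ R := by
        rintro ⟨m, j, a, b⟩ -
        by_cases hab : b < a ∧ a ≤ (T j).length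
        · obtain ⟨hab, ha⟩ := hab
          obtain ⟨i, hi⟩ := lb_some T j b (lt_of_lt_of_le hab ha)
          have h1 := hF i (fun ω => pp ω.1 (T j) (rt T (j, b))
            ((pp ω.1 (T j) a)⁻¹ ((sml ω).2 m))) (by
              intro ω x
              simp [sml])
          have hsub : A4 (m, j, a, b) ⊆ (univ.filter fun ω : Oh r k β => pt ω i =
              pp ω.1 (T j) (rt T (j, b)) ((pp ω.1 (T j) a)⁻¹ ((sml ω).2 m))) := by
            intro ω hω
            obtain ⟨-, -, -, h3⟩ := Finset.mem_filter.1 hω
            refine Finset.mem_filter.2 ⟨Finset.mem_univ _, ?_⟩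
            simp only at h3
            rw [ZZ_some T ω.1 (pt ω) j b i hi] at h3
            have h4 := Option.some.inj h3
            rw [← h4]
            simp
          calc (A4 (m, j, a, b)).card * N ≤ _ :=
                Nat.mul_le_mul_right _ (Finset.card_le_card hsub)
            _ = R := h1
        · have : A4 (m, j, a, b) = ∅ := by
            rw [Finset.eq_empty_iff_forall_notMem]
            intro ω hω
            obtain ⟨-, h1, h2, -⟩ := Finset.mem_filter.1 hω
            exact hab ⟨h1, h2⟩
          rw [this]
          simp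
      have c1 := card_bU univ A1 N R b1
      have c2 := card_bU univ A2 N R b2
      have c3 := card_bU _ A3 N _ b3
      have c4 := card_bU _ A4 N _ b4
      have hsub : (univ.filter fun ω : Oh r k β => ¬ Good T ω) ⊆
          (univ.biUnion A1 ∪ univ.biUnion A2) ∪
          ((univ ×ˢ range (L + 1) ×ˢ range (L + 1) : Finset (Fin d × ℕ × ℕ)).biUnion A3 ∪
          (univ ×ˢ univ ×ˢ range (L + 1) ×ˢ range (L + 1) :
            Finset (Fin k × Fin d × ℕ × ℕ)).biUnion A4) := by
        intro ω hω
        obtain ⟨-, hω⟩ := Finset.mem_filter.1 hω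
        by_contra hcon
        simp only [Finset.mem_union, Finset.mem_biUnion, Finset.mem_univ, true_and, not_or,
          not_exists, Finset.mem_product, Finset.mem_range, not_and] at hcon
        obtain ⟨⟨n1, n2⟩, n3, n4⟩ := hcon
        apply hω
        constructor
        · intro i h
          exact n1 i (Finset.mem_filter.2 ⟨Finset.mem_univ _, h⟩)
        · intro m h
          exact n2 m (Finset.mem_filter.2 ⟨Finset.mem_univ _, h⟩)
        · intro j a b hab hb h
          have := hlen j
          exact n3 (j, a, b) ⟨by simp only; omega, by simp only; omega⟩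
            (Finset.mem_filter.2 ⟨Finset.mem_univ _, hab, hb, h⟩)
        · intro m j a b hab ha h
          have := hlen j
          exact n4 (m, j, a, b) ⟨by simp only; omega, by simp only; omega⟩
            (Finset.mem_filter.2 ⟨Finset.mem_univ _, hab, ha, h⟩)
      have hcard := (Finset.card_le_card hsub).trans ((Finset.card_union_le _ _).trans
        (Nat.add_le_add (Finset.card_union_le _ _) (Finset.card_union_le _ _)))
      simp only [Finset.card_univ, Fintype.card_fin, Finset.card_product, Finset.card_range]
        at c1 c2 c3 c4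
      calc (univ.filter fun ω : Oh r k β => ¬ Good T ω).card * N
          ≤ _ := Nat.mul_le_mul_right N hcard
        _ ≤ r * R + k * R + (d * ((L + 1) * (L + 1)) * (R * (1 + 2 * L ^ 2)) +
              k * (d * ((L + 1) * (L + 1))) * R) := by
            rw [Nat.add_mul, Nat.add_mul, Nat.add_mul]
            exact Nat.add_le_add (Nat.add_le_add c1 c2) (Nat.add_le_add c3 c4)
        _ ≤ C * (k + 1) * R := by
            have e1 : r * R + k * R + (d * ((L + 1) * (L + 1)) * (R * (1 + 2 * L ^ 2)) +
              k * (d * ((L + 1) * (L + 1))) * R) = (r + k + d * (L + 1) ^ 2 * (1 + 2 * L ^ 2) +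
                k * (d * (L + 1) ^ 2)) * R := by ring
            rw [e1]
            apply Nat.mul_le_mul_right
            rw [hC]
            have e2 : (r + 1 + d * (L + 1) ^ 2 * (1 + 2 * L ^ 2) + d * (L + 1) ^ 2 + 2 * L) *
                (k + 1) = (r + k + d * (L + 1) ^ 2 * (1 + 2 * L ^ 2) + k * (d * (L + 1) ^ 2)) +
                (k * r + 1 + k * (d * (L + 1) ^ 2 * (1 + 2 * L ^ 2)) + d * (L + 1) ^ 2 +
                  2 * L * (k + 1)) := by ring
            rw [e2]
            exact Nat.le_add_right _ _
  have key2 : (((univ.filter fun ω : Oh r k β => ¬ Good T ω).card * N : ℕ) : ℝ) ≤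
      ((C * (k + 1) * R : ℕ) : ℝ) := by exact_mod_cast key
  push_cast at key2
  convert key2 using 3

end Pool.Agent.H21.SE4IP
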