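import Pool.Agent.H4.SE.Targets

/-!
# Tuples of words in symmetric groups (MP_45b854_al): positions at a fixed point (module IV)
-/

set_option autoImplicit false

open Finset Equiv
open scoped Classical

namespace Pool.Agent.H21.SE4IV

open Pool.Agent.H4.SE
open Pool.Agent.H11.SAE (lp act verts)

variable {r d : ℕ} {β : Type}

theorem pp_ge (σ : Fin r → Perm β) (T : List (Fin r × Bool)) :
    ∀ k, T.length ≤ k → pp σ T k = pp σ T T.length := by
  intro k hk
  induction k, hk using Nat.le_induction with
  | base => rfl
  | succ k hk ih =>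
    rw [pp, List.getElem?_eq_none hk, ih]
    simp

theorem lp_conj (σ : Fin r → Perm β) (s : Perm β) (hs : s * s = 1) (x : Fin r × Bool) :
    lp (fun i => s * σ i * s) x = s * lp σ x * s := by
  have hs' : s⁻¹ = s := inv_eq_of_mul_eq_one_left hs
  obtain ⟨i, b⟩ := x
  cases b
  · simp [Pool.Agent.H11.SAE.lp, hs', mul_assoc]
  · simp [Pool.Agent.H11.SAE.lp]

theorem pp_conj (σ : Fin r → Perm β) (s : Perm β) (hs : s * s = 1) (T : List (Fin r × Bool)) :
    ∀ k, pp (fun i => s * σ i * s) T k = s * pp σ T k * s := by
  intro k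
  induction k with
  | zero => simp [pp, hs]
  | succ k ih =>
    rw [pp, pp, ih]
    cases T[k]? with
    | none => simp
    | some x =>
      simp only
      rw [lp_conj σ s hs x]
      calc s * lp σ x * s * (s * pp σ T k * s) = s * lp σ x * (s * s) * pp σ T k * s := by
            group
        _ = s * (lp σ x * pp σ T k) * s := by rw [hs]; group

/-- conjugation of a system -/
def cj {k : ℕ} (s : Perm β) (ω : Om r k β) : Om r k β :=
  (fun i => s * ω.1 i * s, fun m => s (ω.2 m))

theorem cj_cj {k : ℕ} (s : Perm β) (hs : s * s = 1) (ω : Om r k β) : cj s (cj s ω) = ω := by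
  have h1 : ∀ x, s (s x) = x := fun x => by
    rw [← Perm.mul_apply, hs]; rfl
  apply Prod.ext
  · funext i
    show s * (s * ω.1 i * s) * s = ω.1 i
    calc s * (s * ω.1 i * s) * s = (s * s) * ω.1 i * (s * s) := by group
      _ = ω.1 i := by rw [hs]; simp
  · funext m
    exact h1 _

theorem pat_cj (T : Fin d → List (Fin r × Bool)) (σ : Fin r → Perm β) (s : Perm β)
    (hs : s * s = 1) (v : β) (j : Fin d) (l : ℕ) :
    pat T (fun i => s * σ i * s) v j l = s (pat T σ (s v) j l) := by
  have hs' : s⁻¹ = s := inv_eq_of_mul_eq_one_left hs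
  unfold pat
  rw [pp_conj σ s hs]
  simp [mul_inv_rev, hs', Perm.mul_apply]

theorem pf_IV (hEM : T_EM) (hEP : T_EP) (hEI : T_EI) : T_IV := by
  intro r d T k β _ _ _ a
  -- all points give the same entropy
  have hb : ∀ b : β, ent (fun ω : Om r k β => (WQ T ω, pat T ω.1 b)) =
      ent (fun ω : Om r k β => (WQ T ω, pat T ω.1 a)) := by
    intro b
    set s : Perm β := swap a b with hsd
    have hs : s * s = 1 := Equiv.swap_mul_self a b
    have hss : ∀ x, s (s x) = x := fun x => by
      rw [← Perm.mul_apply, hs]; rfl
    have h1 : ent (fun ω : Om r k β => (WQ T (cj s ω), pat T (cj s ω).1 b)) =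
        ent (fun ω : Om r k β => (WQ T ω, pat T ω.1 b)) := by
      refine hEP (Om r k β) (Om r k β) _ (cj s) 1 Nat.one_pos ?_
        (fun ω : Om r k β => (WQ T ω, pat T ω.1 b))
      intro x
      rw [Finset.card_eq_one]
      refine ⟨cj s x, ?_⟩
      ext y
      simp only [Finset.mem_filter, Finset.mem_univ, true_and, Finset.mem_singleton]
      constructor
      · rintro rfl
        exact (cj_cj s hs y).symm
      · rintro rfl
        exact cj_cj s hs x
    rw [← h1]
    have hW : ∀ (ω : Om r k β) (j : Fin d), W T (cj s ω).1 j = s * W T ω.1 j * s := by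
      intro ω j
      exact pp_conj ω.1 s hs (T j) _
    have hP : ∀ (ω : Om r k β) (v : β) (j : Fin d) (l : ℕ),
        pat T (cj s ω).1 v j l = s (pat T ω.1 (s v) j l) := by
      intro ω v j l
      exact pat_cj T ω.1 s hs v j l
    have hsb : s b = a := Equiv.swap_apply_right a b
    apply le_antisymm
    · apply hEM
      intro x y hxy
      simp only [WQ, Prod.mk.injEq] at hxy ⊢
      obtain ⟨⟨hw, hq⟩, hp⟩ := hxy
      refine ⟨⟨?_, ?_⟩, ?_⟩
      · funext j
        rw [hW, hW, hw]
      · funext m j l
        rw [hP, hP]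
        show s (pat T x.1 (s (s (x.2 m))) j l) = s (pat T y.1 (s (s (y.2 m))) j l)
        rw [hss, hss]
        rw [congrFun (congrFun (congrFun hq m) j) l]
      · funext j l
        rw [hP, hP, hsb, hp]
    · apply hEM
      intro x y hxy
      simp only [WQ, Prod.mk.injEq] at hxy ⊢
      obtain ⟨⟨hw, hq⟩, hp⟩ := hxy
      refine ⟨⟨?_, ?_⟩, ?_⟩
      · funext j
        have := congrFun hw j
        rw [hW, hW] at this
        exact mul_left_cancel (mul_right_cancel this)
      · funext m j l
        have := congrFun (congrFun (congrFun hq m) j) l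
        rw [hP, hP] at this
        have h2 := s.injective this
        have h3 : ∀ z : Om r k β, s ((cj s z).2 m) = z.2 m := fun z => hss _
        rw [h3, h3] at h2
        exact h2
      · funext j l
        have := congrFun (congrFun hp j) l
        rw [hP, hP, hsb] at this
        exact s.injective this
  -- the pairs
  have h2 := hEI (Om r k β) β _ (fun ω b => (WQ T ω, pat T ω.1 b))
  have h3 : ent (fun x : Om r k β × β => ((WQ T x.1, pat T x.1.1 x.2), x.2)) =
      ent (fun x : Om r k β × β => (WQ T x.1, fun a : VV T => pos T x.1.1 x.2 a.1)) := by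
    apply le_antisymm
    · apply hEM
      intro x y hxy
      simp only [Prod.mk.injEq] at hxy ⊢
      obtain ⟨hw, hp⟩ := hxy
      have hnone : (none : Option (Fin d × ℕ)) ∈ VV T := Finset.mem_insert_self _ _
      have hv : x.2 = y.2 := congrFun hp ⟨none, hnone⟩
      refine ⟨⟨hw, ?_⟩, hv⟩
      funext j l
      rcases Nat.eq_zero_or_pos l with h0 | h0
      · subst h0
        simpa [pat, pp] using hv
      · by_cases hl : l < (T j).length
        · have hmem : (some (j, l) : Option (Fin d × ℕ)) ∈ VV T := by
            unfold VV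
            refine Finset.mem_insert_of_mem (Finset.mem_image_of_mem _ ?_)
            refine Finset.mem_filter.2 ⟨Finset.mem_product.2 ⟨Finset.mem_univ _, ?_⟩, h0, hl⟩
            refine Finset.mem_range.2 (lt_of_lt_of_le hl ?_)
            exact Finset.single_le_sum (f := fun j => (T j).length)
              (fun _ _ => Nat.zero_le _) (Finset.mem_univ j)
          exact congrFun hp ⟨some (j, l), hmem⟩
        · rw [not_lt] at hl
          have hW : W T x.1.1 j = W T y.1.1 j := by
            have := congrArg Prod.fst hw
            exact congrFun this j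
          unfold W at hW
          unfold pat
          rw [pp_ge _ _ l hl, pp_ge _ _ l hl, hW, hv]
    · apply hEM
      intro x y hxy
      simp only [Prod.mk.injEq] at hxy ⊢
      obtain ⟨⟨hw, hp⟩, hv⟩ := hxy
      refine ⟨hw, ?_⟩
      funext c
      obtain ⟨c, hc⟩ := c
      cases c with
      | none => exact hv
      | some e => exact congrFun (congrFun hp e.1) e.2
  have h4 : (∑ b : β, ent (fun ω : Om r k β => (WQ T ω, pat T ω.1 b))) / Fintype.card β =
      ent (fun ω : Om r k β => (WQ T ω, pat T ω.1 a)) := by
    rw [Finset.sum_congr rfl (fun b _ => hb b)]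
    rw [Finset.sum_const, Finset.card_univ, nsmul_eq_mul]
    have : (Fintype.card β : ℝ) ≠ 0 := Nat.cast_ne_zero.2 Fintype.card_ne_zero
    field_simp
  unfold rho
  rw [← h3]
  rw [h4] at h2
  rw [h2]
  ring

end Pool.Agent.H21.SE4IV
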